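import Pool.Agent.FGT.Stmts

/-!
# FGT, row EXI: means along a subsequence of windows
-/

namespace Pool.Agent.FGT.H32

open Filter Topology

theorem exi : ExiStmt := by
  classical
  intro M hM
  set U : Ultrafilter ℕ := Ultrafilter.of atTop with hU
  have hUle : (U : Filter ℕ) ≤ atTop := Ultrafilter.of_le atTop
  -- the limit exists for bounded functions
  have hex : ∀ f : ℤ → ℝ, Bdd f → ∃ l : ℝ, Tendsto (fun k => av f (M k)) (U : Filter ℕ) (𝓝 l) := by
    rintro f ⟨C, hC⟩
    have h1 : ∀ k, av f (M k) ∈ Set.Icc (-C) C := fun k => by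
      have := abs_le.1 (av_abs_le hC (M k))
      exact ⟨this.1, this.2⟩
    obtain ⟨l, -, hl⟩ := (isCompact_Icc (a := -C) (b := C)).ultrafilter_le_nhds
      (U.map fun k => av f (M k)) (by
        rw [le_principal_iff]
        exact Filter.mem_map.2 (Filter.univ_mem' h1))
    exact ⟨l, hl⟩
  refine ⟨fun f => if h : Bdd f then (hex f h).choose else 0, ?_, ?_⟩
  · intro F hF ε hε N
    have hev : ∀ᶠ k in (U : Filter ℕ), ∀ f ∈ F,
        |av f (M k) - (if h : Bdd f then (hex f h).choose else 0)| < ε := by
      rw [Filter.eventually_all_finset]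
      intro f hf
      have hb := hF f hf
      have h1 := (hex f hb).choose_spec
      rw [dif_pos hb]
      filter_upwards [h1.eventually (Metric.ball_mem_nhds _ hε)] with k hk
      rw [Real.dist_eq] at hk
      exact hk
    have hev2 : ∀ᶠ k in (U : Filter ℕ), N ≤ k := hUle (eventually_ge_atTop N)
    obtain ⟨k, hk1, hk2⟩ := (hev.and hev2).exists
    exact ⟨M k, hk2.trans (hM.id_le k), hk1⟩
  · intro f hb q hq
    simp only [dif_pos hb]
    exact tendsto_nhds_unique (hex f hb).choose_spec (hq.mono_left hUle)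

end Pool.Agent.FGT.H32
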