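import Pool.Agent.FGT.Stmts

/-!
# FGT, row ORB: the orbit theorem from TBD, TYF, SEP, TYI
-/

namespace Pool.Agent.FGT.H32

open Filter Topology

universe u

theorem orb (tbd : TbdStmt.{u}) (tyf : TyfStmt.{u}) (sep : SepStmt.{u}) (tyi : TyiStmt.{u}) :
    OrbStmt.{u} := by
  intro L _ hL α hα I hI z hcov hns
  have hfg : (⊤ : Subgroup L).FG := by
    have h := hL.fg
    exact Group.fg_def.1 h
  have hinf : ((⊤ : Subgroup L) : Set L).Infinite := by
    have h := hL.inf
    rw [Subgroup.coe_top]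
    exact Set.infinite_univ
  obtain ⟨g, -, hg⟩ := hns ⊤ hfg hinf ⊤ inferInstance
  have hz : z ∈ II α (⊤ : Subgroup L) := by
    refine Set.Infinite.mono ?_ hg
    rintro i ⟨h, -, hi⟩
    refine ⟨h * g, Subgroup.mem_top _, ?_⟩
    rw [map_mul, Equiv.Perm.mul_apply]
    exact hi
  have htb := tbd L hL.fg α hα I hI z hz hcov
  by_cases h : ∃ F : Finset ℤ, ∀ g : L, ∃ f ∈ F, (∃ h : L, α h z = f) ∧
      kk α I (α g z) f = DD α I z
  · exact tyf L hL α hα I hI z hcov hns h
  · exact tyi L hL α hα I hI z hns (sep L hL α hα I hI z hns htb) h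

end Pool.Agent.FGT.H32
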